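import Mathlib

/-!
# Fixed points of weakly contractive set-valued maps (a question of Amini-Harandi)

Let `X` be a nonempty complete metric space, `θ` in the class `𝒜` and let `T` be a map from `X` to
the nonempty closed bounded subsets of `X` with `H(Tx, Ty) ≤ d(x, y) - θ(d(x, y))` for all `x, y`.
Then `T` has a fixed point. No compactness of the values is needed.

Proof: `θ ≥ η := min γ ε₀`, and `η` is again nondecreasing, subadditive and vanishes only at `0`.
If there is no fixed point, choose `x_{n+2} ∈ T x_{n+1}` with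
`d(x_{n+1}, x_{n+2}) < H(T x_n, T x_{n+1}) + η(d_n) / 2`, where `d_n = d(x_n, x_{n+1})`. Then
`∑ η(d_n) ≤ 2 d_0`, and by subadditivity `η(d(x_m, x_n)) ≤ ∑_{m ≤ k < n} η(d_k)`, so `(x_n)` is
a Cauchy sequence; its limit is a fixed point.
-/

set_option autoImplicit false

open Filter Topology Set

namespace Pool.Agent.Results.MP_e93574_an.FixedPoint

/-- The class `Γ`: continuous, nondecreasing, subadditive maps `[0,∞) → [0,∞)` which vanish exactly
at `0`. (Such a map is written as a function on `ℝ`, of which only the values on `[0,∞)` matter.) -/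
structure ClassGamma (γ : ℝ → ℝ) : Prop where
  continuousOn : ContinuousOn γ (Ici 0)
  monotoneOn : MonotoneOn γ (Ici 0)
  subadditive : ∀ s t : ℝ, 0 ≤ s → 0 ≤ t → γ (s + t) ≤ γ s + γ t
  nonneg : ∀ t : ℝ, 0 ≤ t → 0 ≤ γ t
  eq_zero_iff : ∀ t : ℝ, 0 ≤ t → (γ t = 0 ↔ t = 0)

/-- The class `𝒜`: maps `θ : [0,∞) → [0,∞)` for which there are `ε₀ > 0` and `γ ∈ Γ` such that
`θ t ≤ ε₀` implies `γ t ≤ θ t`, for all `t ≥ 0`. -/
def ClassA (θ : ℝ → ℝ) : Prop :=
  (∀ t : ℝ, 0 ≤ t → 0 ≤ θ t) ∧
    ∃ ε₀ : ℝ, 0 < ε₀ ∧ ∃ γ : ℝ → ℝ, ClassGamma γ ∧ ∀ t : ℝ, 0 ≤ t → θ t ≤ ε₀ → γ t ≤ θ t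

/-- **Theorem.** Let `X` be a nonempty complete metric space, `θ ∈ 𝒜`, and let `T` assign to every
point of `X` a nonempty closed bounded subset of `X`. If the Hausdorff distance satisfies
`H(Tx, Ty) ≤ d(x, y) - θ(d(x, y))` for all `x, y`, then `T` has a fixed point. -/
theorem result {X : Type*} [MetricSpace X] [CompleteSpace X] [Nonempty X]
    (θ : ℝ → ℝ) (hθ : ClassA θ) (T : X → Set X)
    (hne : ∀ x, (T x).Nonempty) (hcl : ∀ x, IsClosed (T x))
    (hbd : ∀ x, Bornology.IsBounded (T x))
    (hT : ∀ x y, Metric.hausdorffDist (T x) (T y) ≤ dist x y - θ (dist x y)) :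
    ∃ x, x ∈ T x := by
  obtain ⟨hθ0, ε₀, hε₀, γ, hγ, hγθ⟩ := hθ
  by_contra hno
  push Not at hno
  -- the function `η = min γ ε₀`
  set η : ℝ → ℝ := fun t => min (γ t) ε₀ with hη
  have hηθ : ∀ t, 0 ≤ t → η t ≤ θ t := by
    intro t ht
    by_cases h : θ t ≤ ε₀
    · exact (min_le_left _ _).trans (hγθ t ht h)
    · exact (min_le_right _ _).trans (not_le.1 h).le
  have hηnn : ∀ t, 0 ≤ t → 0 ≤ η t := fun t ht => le_min (hγ.nonneg t ht) hε₀.le
  have hηpos : ∀ t, 0 < t → 0 < η t := by
    intro t ht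
    refine lt_min (lt_of_le_of_ne (hγ.nonneg t ht.le) ?_) hε₀
    intro h
    exact ht.ne' ((hγ.eq_zero_iff t ht.le).1 h.symm)
  have hηmono : ∀ s t, 0 ≤ s → s ≤ t → η s ≤ η t := fun s t hs hst =>
    min_le_min (hγ.monotoneOn hs (hs.trans hst) hst) le_rfl
  have hηsub : ∀ s t, 0 ≤ s → 0 ≤ t → η (s + t) ≤ η s + η t := by
    intro s t hs ht
    have h1 := hγ.subadditive s t hs ht
    have h2 := hγ.nonneg s hs
    have h3 := hγ.nonneg t ht
    simp only [hη]
    rcases le_total (γ s) ε₀ with a | a <;> rcases le_total (γ t) ε₀ with b | b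
    · rw [min_eq_left a, min_eq_left b]
      exact (min_le_left _ _).trans h1
    · rw [min_eq_left a, min_eq_right b]
      exact (min_le_right _ _).trans (by linarith)
    · rw [min_eq_right a, min_eq_left b]
      exact (min_le_right _ _).trans (by linarith)
    · rw [min_eq_right a, min_eq_right b]
      exact (min_le_right _ _).trans (by linarith)
  have hη0 : η 0 = 0 := by
    simp only [hη]
    rw [(hγ.eq_zero_iff 0 le_rfl).2 rfl, min_eq_left hε₀.le]
  -- one step of the iteration
  have hfin : ∀ x y, Metric.hausdorffEDist (T x) (T y) ≠ ⊤ := fun x y =>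
    Metric.hausdorffEDist_ne_top_of_nonempty_of_bounded (hne x) (hne y) (hbd x) (hbd y)
  have step : ∀ p : {p : X × X // p.2 ∈ T p.1}, ∃ z : X, z ∈ T p.1.2 ∧
      dist p.1.2 z ≤ dist p.1.1 p.1.2 - η (dist p.1.1 p.1.2) / 2 := by
    rintro ⟨⟨x, y⟩, hy⟩
    have hxy : 0 < dist x y := dist_pos.2 (fun h => hno x (by rw [← h] at hy; exact hy))
    have h1 : Metric.hausdorffDist (T x) (T y) <
        dist x y - η (dist x y) + η (dist x y) / 2 := by
      have h2 := hT x y
      have h3 := hηθ (dist x y) dist_nonneg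
      have h4 := hηpos (dist x y) hxy
      linarith
    obtain ⟨z, hz, hlt⟩ := Metric.exists_dist_lt_of_hausdorffDist_lt hy h1 (hfin x y)
    refine ⟨z, hz, ?_⟩
    simp only
    linarith
  choose F hF1 hF2 using step
  obtain ⟨x₀⟩ := (inferInstance : Nonempty X)
  obtain ⟨y₀, hy₀⟩ := hne x₀
  let P : ℕ → {p : X × X // p.2 ∈ T p.1} := fun n =>
    Nat.rec ⟨(x₀, y₀), hy₀⟩ (fun _ p => ⟨(p.1.2, F p), hF1 p⟩) n
  have hPs : ∀ n, P (n + 1) = ⟨((P n).1.2, F (P n)), hF1 (P n)⟩ := fun n => rfl
  clear_value P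
  let u : ℕ → X := fun n => (P n).1.1
  have hu1 : ∀ n, u (n + 1) = (P n).1.2 := by
    intro n
    simp only [u, hPs n]
  have huT : ∀ n, u (n + 1) ∈ T (u n) := by
    intro n
    rw [hu1 n]
    exact (P n).2
  have hdec : ∀ n, dist (u (n + 1)) (u (n + 2)) ≤
      dist (u n) (u (n + 1)) - η (dist (u n) (u (n + 1))) / 2 := by
    intro n
    have h2 : u (n + 2) = F (P n) := by
      rw [hu1 (n + 1), hPs n]
    rw [h2, hu1 n]
    exact hF2 (P n)
  -- the sum of the `η (d n)` is finite
  have hsum : ∀ n, ∑ k ∈ Finset.range n, η (dist (u k) (u (k + 1))) ≤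
      2 * dist (u 0) (u 1) - 2 * dist (u n) (u (n + 1)) := by
    intro n
    induction n with
    | zero => simp
    | succ n ih =>
      rw [Finset.sum_range_succ]
      have := hdec n
      have h3 : n + 1 + 1 = n + 2 := rfl
      rw [h3]
      linarith
  have hsummable : Summable (fun k => η (dist (u k) (u (k + 1)))) := by
    refine summable_of_sum_range_le (c := 2 * dist (u 0) (u 1)) (fun k => hηnn _ dist_nonneg) ?_
    intro n
    have := hsum n
    have h4 : 0 ≤ dist (u n) (u (n + 1)) := dist_nonneg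
    linarith
  have hchain : ∀ m k, η (dist (u m) (u (m + k))) ≤
      ∑ j ∈ Finset.range k, η (dist (u (m + j)) (u (m + j + 1))) := by
    intro m k
    induction k with
    | zero => simp [hη0]
    | succ k ih =>
      rw [Finset.sum_range_succ]
      have h1 : dist (u m) (u (m + (k + 1))) ≤
          dist (u m) (u (m + k)) + dist (u (m + k)) (u (m + k + 1)) := dist_triangle _ _ _
      have h2 := hηmono _ _ dist_nonneg h1
      have h3 := hηsub _ _ (dist_nonneg (x := u m) (y := u (m + k)))
        (dist_nonneg (x := u (m + k)) (y := u (m + k + 1)))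
      linarith
  -- the sequence is Cauchy
  have hcauchy : CauchySeq u := by
    rw [Metric.cauchySeq_iff']
    intro ε hε
    have hηε := hηpos ε hε
    have htail := tendsto_sum_nat_add (fun k => η (dist (u k) (u (k + 1))))
    obtain ⟨N, hN⟩ := ((tendsto_order.1 htail).2 _ hηε).exists_forall_of_atTop
    refine ⟨N, fun n hn => ?_⟩
    obtain ⟨k, rfl⟩ := Nat.exists_eq_add_of_le hn
    by_contra hcon
    rw [not_lt, dist_comm] at hcon
    have h1 := hηmono ε _ hε.le hcon
    have h2 := hchain N k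
    have h3 : ∑ j ∈ Finset.range k, η (dist (u (N + j)) (u (N + j + 1))) ≤
        ∑' j, η (dist (u (j + N)) (u (j + N + 1))) := by
      have h5 : Summable (fun j => η (dist (u (j + N)) (u (j + N + 1)))) :=
        (summable_nat_add_iff N).2 hsummable
      have h6 := h5.sum_le_tsum (Finset.range k) (fun j _ => hηnn _ dist_nonneg)
      refine le_trans (le_of_eq ?_) h6
      refine Finset.sum_congr rfl fun j _ => ?_
      rw [add_comm N j]
    have h4 := hN N le_rfl
    linarith
  obtain ⟨x, hx⟩ := cauchySeq_tendsto_of_complete hcauchy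
  -- the limit is a fixed point
  apply hno x
  have hinf : Metric.infDist x (T x) ≤ 0 := by
    have h1 : ∀ n, Metric.infDist x (T x) ≤ dist x (u (n + 1)) + dist (u n) x := by
      intro n
      have h2 : Metric.infDist x (T x) ≤ Metric.infDist (u (n + 1)) (T x) + dist x (u (n + 1)) :=
        Metric.infDist_le_infDist_add_dist
      have h3 : Metric.infDist (u (n + 1)) (T x) ≤ Metric.hausdorffDist (T (u n)) (T x) :=
        Metric.infDist_le_hausdorffDist_of_mem (huT n) (hfin _ _)
      have h4 := hT (u n) x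
      have h5 := hθ0 (dist (u n) x) dist_nonneg
      linarith
    have h2 : Tendsto (fun n => dist x (u (n + 1)) + dist (u n) x) atTop (𝓝 (0 + 0)) := by
      have h3 : Tendsto (fun n => u (n + 1)) atTop (𝓝 x) := (tendsto_add_atTop_iff_nat 1).2 hx
      have h4 : Tendsto (fun n => dist x (u (n + 1))) atTop (𝓝 0) := by
        have := (tendsto_const_nhds (x := x)).dist h3
        rwa [dist_self] at this
      have h5 : Tendsto (fun n => dist (u n) x) atTop (𝓝 0) := by
        have := hx.dist (tendsto_const_nhds (x := x))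
        rwa [dist_self] at this
      exact h4.add h5
    rw [add_zero] at h2
    exact ge_of_tendsto' h2 h1
  have h0 : Metric.infDist x (T x) = 0 := le_antisymm hinf Metric.infDist_nonneg
  exact ((hcl x).mem_iff_infDist_zero (hne x)).2 h0

end Pool.Agent.Results.MP_e93574_an.FixedPoint
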